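import Mathlib

set_option autoImplicit false
set_option linter.unusedSectionVars false

/-! Newton's identities over a field of characteristic zero: tuples with equal power sums that differ in
few places are permutations of one another. -/

namespace Pool.Agent.Run7.h814.VC

open Finset Polynomial

variable {K : Type} [Field K] [CharZero K]

theorem esymm_eq (s k : ℕ) (x y : Fin s → K)
    (h : ∀ j, 1 ≤ j → j ≤ k → ∑ i, x i ^ j = ∑ i, y i ^ j) (m : ℕ) (hm : m ≤ k) :
    MvPolynomial.aeval x (MvPolynomial.esymm (Fin s) K m) =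
      MvPolynomial.aeval y (MvPolynomial.esymm (Fin s) K m) := by
  induction m using Nat.strong_induction_on with
  | _ m ih =>
    rcases Nat.eq_zero_or_pos m with h0 | h0
    · subst h0
      simp [MvPolynomial.esymm_zero]
    · have hx := congrArg (MvPolynomial.aeval x) (MvPolynomial.mul_esymm_eq_sum (Fin s) K m)
      have hy := congrArg (MvPolynomial.aeval y) (MvPolynomial.mul_esymm_eq_sum (Fin s) K m)
      simp only [map_mul, map_natCast, map_pow, map_neg, map_one, map_sum] at hx hy
      have hps : ∀ (z : Fin s → K) (j : ℕ),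
          MvPolynomial.aeval z (MvPolynomial.psum (Fin s) K j) = ∑ i, z i ^ j := by
        intro z j
        simp [MvPolynomial.psum]
      have hsum : ∑ a ∈ antidiagonal m with a.1 < m, (-1 : K) ^ a.1 *
            MvPolynomial.aeval x (MvPolynomial.esymm (Fin s) K a.1) *
              MvPolynomial.aeval x (MvPolynomial.psum (Fin s) K a.2) =
          ∑ a ∈ antidiagonal m with a.1 < m, (-1 : K) ^ a.1 *
            MvPolynomial.aeval y (MvPolynomial.esymm (Fin s) K a.1) *
              MvPolynomial.aeval y (MvPolynomial.psum (Fin s) K a.2) := by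
        refine sum_congr rfl fun a ha => ?_
        rw [mem_filter, HasAntidiagonal.mem_antidiagonal] at ha
        rw [ih a.1 ha.2 (by omega), hps, hps, h a.2 (by omega) (by omega)]
      rw [hsum] at hx
      have h2 : (m : K) * MvPolynomial.aeval x (MvPolynomial.esymm (Fin s) K m) =
          (m : K) * MvPolynomial.aeval y (MvPolynomial.esymm (Fin s) K m) := by
        rw [hx, hy]
      exact mul_left_cancel₀ (by exact_mod_cast h0.ne') h2

theorem coeff_prod (s : ℕ) (x : Fin s → K) (m : ℕ) (hm : m ≤ s) :
    (∏ i, ((X : K[X]) - C (x i))).coeff m =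
      (-1) ^ (s - m) * MvPolynomial.aeval x (MvPolynomial.esymm (Fin s) K (s - m)) := by
  have hc : Multiset.card (univ.val.map x) = s := by simp
  have h := Multiset.prod_X_sub_C_coeff (univ.val.map x) (k := m) (by rw [hc]; exact hm)
  rw [hc] at h
  rw [MvPolynomial.aeval_esymm_eq_multiset_esymm, ← h, Multiset.map_map]
  rfl

theorem coeff_prod_gt (s : ℕ) (x : Fin s → K) (m : ℕ) (hm : s < m) :
    (∏ i, ((X : K[X]) - C (x i))).coeff m = 0 := by
  apply coeff_eq_zero_of_natDegree_lt
  have h := natDegree_finsetProd_X_sub_C_eq_card (univ : Finset (Fin s)) x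
  rw [h, card_univ, Fintype.card_fin]
  exact hm

theorem newt (s k : ℕ) (x y : Fin s → K)
    (h : ∀ j : Fin k, ∑ i : Fin s, x i ^ (j.val + 1) = ∑ i : Fin s, y i ^ (j.val + 1)) :
    (∏ i, ((X : K[X]) - C (x i)) - ∏ i, ((X : K[X]) - C (y i))).degree < ((s - k : ℕ) : WithBot ℕ) := by
  rw [degree_lt_iff_coeff_zero]
  intro m hm
  rw [coeff_sub]
  rcases le_or_gt m s with h1 | h1
  · rw [coeff_prod s x m h1, coeff_prod s y m h1, esymm_eq s k x y ?_ (s - m) (by omega), sub_self]
    intro j hj1 hj2
    have := h ⟨j - 1, by omega⟩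
    simp only at this
    rw [show j - 1 + 1 = j by omega] at this
    exact this
  · rw [coeff_prod_gt s x m h1, coeff_prod_gt s y m h1, sub_self]

theorem exists_perm_of_map_eq {m : ℕ} {α : Type} (f g : Fin m → α)
    (h : Multiset.map f Finset.univ.val = Multiset.map g Finset.univ.val) :
    ∃ σ : Equiv.Perm (Fin m), ∀ j, f (σ j) = g j := by
  classical
  have hcard : ∀ a : α, Nat.card {j // g j = a} = Nat.card {j // f j = a} := by
    intro a
    have h1 := congrArg (Multiset.count a) h
    rw [Multiset.count_map, Multiset.count_map] at h1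
    rw [Nat.card_eq_fintype_card, Nat.card_eq_fintype_card, Fintype.card_subtype,
      Fintype.card_subtype]
    have h2 : ∀ k : Fin m → α, (Finset.univ.filter fun j => k j = a).card =
        (Multiset.filter (fun j => a = k j) Finset.univ.val).card := by
      intro k
      rw [Finset.card_def, Finset.filter_val]
      congr 1
      apply Multiset.filter_congr
      intro x _
      exact eq_comm
    rw [h2, h2, h1]
  have he : ∀ a, Nonempty ({j // g j = a} ≃ {j // f j = a}) := fun a => Finite.card_eq.mp (hcard a)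
  exact ⟨Equiv.ofFiberEquiv (fun a => (he a).some), fun j =>
    Equiv.ofFiberEquiv_map (fun a => (he a).some) j⟩

theorem perm_of_prod {s : ℕ} (x y : Fin s → K)
    (h : ∏ i, ((X : K[X]) - C (x i)) = ∏ i, ((X : K[X]) - C (y i))) :
    ∃ σ : Equiv.Perm (Fin s), y = x ∘ σ := by
  have key : ∀ x : Fin s → K, (∏ i, ((X : K[X]) - C (x i))).roots =
      Multiset.map (fun i => x i) univ.val := by
    intro x
    have e : ∏ i, ((X : K[X]) - C (x i)) =
        ((Multiset.map (fun i => x i) univ.val).map (fun a => X - C a)).prod := by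
      rw [Multiset.map_map]; rfl
    rw [e, roots_multiset_prod_X_sub_C]
  have h1 := congrArg Polynomial.roots h
  rw [key, key] at h1
  obtain ⟨σ, hσ⟩ := exists_perm_of_map_eq _ _ h1
  refine ⟨σ, ?_⟩
  funext j
  exact (hσ j).symm

/-- a solution whose tuples differ in at most `k` places is diagonal -/
theorem newton_support {s k : ℕ} (x y : Fin s → K)
    (h : ∀ j : Fin k, ∑ i : Fin s, x i ^ (j.val + 1) = ∑ i : Fin s, y i ^ (j.val + 1))
    (T : Finset (Fin s)) (hT : ∀ i, i ∉ T → x i = y i) (hc : T.card ≤ k) :
    ∃ σ : Equiv.Perm (Fin s), y = x ∘ σ := by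
  classical
  apply perm_of_prod
  have hd := newt s k x y h
  set A : Polynomial K := ∏ i ∈ Tᶜ, (Polynomial.X - Polynomial.C (x i)) with hA
  have ex : (∏ i, (Polynomial.X - Polynomial.C (x i))) =
      A * ∏ i ∈ T, (Polynomial.X - Polynomial.C (x i)) := by
    rw [hA, ← prod_compl_mul_prod T]
  have ey : (∏ i, (Polynomial.X - Polynomial.C (y i))) =
      A * ∏ i ∈ T, (Polynomial.X - Polynomial.C (y i)) := by
    rw [hA, ← prod_compl_mul_prod T]
    congr 1
    refine prod_congr rfl fun i hi => ?_
    rw [hT i (mem_compl.1 hi)]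
  rw [ex, ey] at hd ⊢
  rw [← mul_sub] at hd
  by_contra hne
  have hB : (∏ i ∈ T, (Polynomial.X - Polynomial.C (x i))) -
      ∏ i ∈ T, (Polynomial.X - Polynomial.C (y i)) ≠ 0 := by
    intro h0
    exact hne (by rw [sub_eq_zero.1 h0])
  rw [Polynomial.degree_mul, Polynomial.degree_eq_natDegree hB] at hd
  have hAd : A.degree = ((s - T.card : ℕ) : WithBot ℕ) := by
    have hmon : A.Monic := Polynomial.monic_prod_of_monic _ _ fun i _ => Polynomial.monic_X_sub_C _
    rw [Polynomial.degree_eq_natDegree hmon.ne_zero, hA]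
    rw [Polynomial.natDegree_finsetProd_X_sub_C_eq_card Tᶜ (fun i => x i), card_compl,
      Fintype.card_fin]
  rw [hAd] at hd
  norm_cast at hd
  omega

end Pool.Agent.Run7.h814.VC
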