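import Pool.Agent.Run7.h814.VC.Core2
import Pool.Agent.Run7.h814.VC.Newt

set_option autoImplicit false
set_option linter.unusedSectionVars false

/-! Solutions of Vinogradov's system whose pairs lie on few curves. -/

namespace Pool.Agent.Run7.h814.VC

open Finset

variable {K : Type} [Field K] [CharZero K]

theorem good_zero (k : ℕ) : Good k (0 : Polynomial K) := by
  refine ⟨fun h => Polynomial.X_ne_zero h.symm, fun a b hab => Or.inr fun j hj _ => ?_⟩
  have h1 := congrArg (fun p => Polynomial.coeff p 1) hab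
  simp only [Polynomial.coeff_zero, Polynomial.coeff_add, Polynomial.coeff_C_mul,
    Polynomial.coeff_X_one, mul_one, Polynomial.coeff_C_succ, add_zero] at h1
  rw [← h1, zero_pow (by omega)]
  exact zero_ne_one

open scoped Classical in
/-- solutions with a fixed curve for each pair in `T` and fixed values off `T ∪ R` -/
noncomputable def NC {s : ℕ} (n : ℕ) (A : Finset K) (T R : Finset (Fin s))
    (c : Fin s → Polynomial K × Bool) (u : Fin s → K) : Finset ((Fin s → K) × (Fin s → K)) :=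
  ((Fintype.piFinset fun _ : Fin s => A) ×ˢ (Fintype.piFinset fun _ : Fin s => A)).filter fun p =>
    (∀ i, i ∉ T → i ∉ R → p.1 i = u i ∧ p.2 i = u i) ∧
    (∀ i ∈ T, if (c i).2 = true then p.2 i = (c i).1.eval (p.1 i) else p.1 i = (c i).1.eval (p.2 i)) ∧
    ∀ j : Fin (n + 1), ∑ i, (p.1 i) ^ (j.val + 1) = ∑ i, (p.2 i) ^ (j.val + 1)

theorem nc_count {s : ℕ} (n D : ℕ) (hD : 1 ≤ D) (A : Finset K) (hA : 1 ≤ A.card)
    (T R : Finset (Fin s)) (hTR : Disjoint T R) (i0 : Fin s) (hi0 : i0 ∈ R)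
    (c : Fin s → Polynomial K × Bool) (u : Fin s → K)
    (hc : ∀ i ∈ T, Good (n + 1) (c i).1) (hcd : ∀ i ∈ T, (c i).1.natDegree ≤ D) :
    (NC n A T R c u).card ≤
      2 ^ (2 * s) * (((n + 1) * D) ^ (2 * s) * A.card ^ n +
        ((n + 1) * ((n + 1) * D) + 1) ^ (n + 1) * A.card ^ (T.card + 2 * R.card - (n + 1))) := by
  classical
  let Φ : (Fin s → K) × (Fin s → K) → (Fin s ⊕ Fin s → K) := fun p =>
    Sum.elim (fun i => if i ∈ T then (if (c i).2 = true then p.1 i else p.2 i) else p.1 i)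
      (fun i => if i ∈ R then p.2 i else 0)
  have hinj : Set.InjOn Φ (NC n A T R c u : Set ((Fin s → K) × (Fin s → K))) := by
    intro p hp q hq hpq
    rw [mem_coe, NC, mem_filter] at hp hq
    have h1 : ∀ i, Φ p (Sum.inl i) = Φ q (Sum.inl i) := fun i => congrFun hpq _
    have h2 : ∀ i, Φ p (Sum.inr i) = Φ q (Sum.inr i) := fun i => congrFun hpq _
    simp only [Φ, Sum.elim_inl, Sum.elim_inr] at h1 h2
    have key : ∀ i, p.1 i = q.1 i ∧ p.2 i = q.2 i := by
      intro i
      have e1 := h1 i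
      have e2 := h2 i
      by_cases hiT : i ∈ T
      · have a1 := hp.2.2.1 i hiT
        have a2 := hq.2.2.1 i hiT
        rw [if_pos hiT, if_pos hiT] at e1
        by_cases hb : (c i).2 = true
        · rw [if_pos hb] at a1 a2
          rw [if_pos hb, if_pos hb] at e1
          exact ⟨e1, by rw [a1, a2, e1]⟩
        · rw [if_neg hb] at a1 a2
          rw [if_neg hb, if_neg hb] at e1
          exact ⟨by rw [a1, a2, e1], e1⟩
      · rw [if_neg hiT, if_neg hiT] at e1
        by_cases hiR : i ∈ R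
        · rw [if_pos hiR, if_pos hiR] at e2
          exact ⟨e1, e2⟩
        · exact ⟨e1, by rw [(hp.2.1 i hiT hiR).2, (hq.2.1 i hiT hiR).2]⟩
    exact Prod.ext (funext fun i => (key i).1) (funext fun i => (key i).2)
  rw [← card_image_of_injOn hinj]
  have hcard2 : Fintype.card (Fin s ⊕ Fin s) = 2 * s := by
    rw [Fintype.card_sum, Fintype.card_fin]; ring
  let V : Finset (Fin s ⊕ Fin s) := (T ∪ R).disjSum R
  have hVc : V.card = T.card + 2 * R.card := by
    rw [card_disjSum, card_union_of_disjoint hTR]; ring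
  let e : Fin s ⊕ Fin s → K :=
    Sum.elim (fun i => if i ∈ T then (if (c i).2 = true then 1 else -1) else 1) (fun _ => -1)
  let f : Fin s ⊕ Fin s → Polynomial K := Sum.elim (fun i => if i ∈ T then (c i).1 else 0) (fun _ => 0)
  let w : Fin s ⊕ Fin s → K := Sum.elim u (fun _ => 0)
  have hmain := s3_count n D hD A hA V e f w ?_ ?_ ?_ (Sum.inr i0) ?_ ?_
  · rw [hcard2, hVc] at hmain
    refine le_trans (card_le_card ?_) hmain
    intro z hz
    obtain ⟨p, hp, rfl⟩ := mem_image.1 hz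
    rw [NC, mem_filter, mem_product, Fintype.mem_piFinset, Fintype.mem_piFinset] at hp
    obtain ⟨⟨hp1, hp2⟩, hp3, hp4, hp5⟩ := hp
    rw [S3, mem_filter, Fintype.mem_piFinset]
    refine ⟨?_, fun j => ?_⟩
    · rintro (i | i)
      · by_cases hi : i ∈ T ∪ R
        · rw [if_pos (by simpa [V] using hi)]
          simp only [Φ, Sum.elim_inl]
          split_ifs
          · exact hp1 i
          · exact hp2 i
          · exact hp1 i
        · rw [if_neg (by simpa [V] using hi)]
          rw [mem_union, not_or] at hi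
          simp only [Φ, w, Sum.elim_inl, mem_singleton, if_neg hi.1]
          exact (hp3 i hi.1 hi.2).1
      · by_cases hi : i ∈ R
        · rw [if_pos (by simpa [V] using hi)]
          simp only [Φ, Sum.elim_inr, if_pos hi]
          exact hp2 i
        · rw [if_neg (by simpa [V] using hi)]
          simp [Φ, w, hi]
    · simp only [V]
      rw [sum_disjSum, sum_union hTR]
      have e1 : ∑ x ∈ T, e (Sum.inl x) * ((Φ p (Sum.inl x)) ^ (j.val + 1) -
          ((f (Sum.inl x)).eval (Φ p (Sum.inl x))) ^ (j.val + 1)) =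
          ∑ x ∈ T, ((p.1 x) ^ (j.val + 1) - (p.2 x) ^ (j.val + 1)) := by
        refine sum_congr rfl fun i hi => ?_
        have h3 := hp4 i hi
        simp only [e, f, Φ, Sum.elim_inl, if_pos hi]
        by_cases hb : (c i).2 = true
        · simp only [if_pos hb] at h3 ⊢
          rw [← h3]; ring
        · simp only [if_neg hb] at h3 ⊢
          rw [← h3]; ring
      have e2 : ∑ x ∈ R, e (Sum.inl x) * ((Φ p (Sum.inl x)) ^ (j.val + 1) -
          ((f (Sum.inl x)).eval (Φ p (Sum.inl x))) ^ (j.val + 1)) =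
          ∑ x ∈ R, (p.1 x) ^ (j.val + 1) := by
        refine sum_congr rfl fun i hi => ?_
        have hiT : i ∉ T := fun h => disjoint_left.1 hTR h hi
        simp only [e, f, Φ, Sum.elim_inl, if_neg hiT, Polynomial.eval_zero]
        ring
      have e3 : ∑ x ∈ R, e (Sum.inr x) * ((Φ p (Sum.inr x)) ^ (j.val + 1) -
          ((f (Sum.inr x)).eval (Φ p (Sum.inr x))) ^ (j.val + 1)) =
          ∑ x ∈ R, (-(p.2 x) ^ (j.val + 1)) := by
        refine sum_congr rfl fun i hi => ?_
        simp only [e, f, Φ, Sum.elim_inr, if_pos hi, Polynomial.eval_zero]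
        ring
      rw [e1, e2, e3]
      have h4 := hp5 j
      rw [← sum_add_sum_compl (T ∪ R), ← sum_add_sum_compl (T ∪ R) fun i => (p.2 i) ^ (j.val + 1),
        sum_union hTR, sum_union hTR] at h4
      have e5 : ∑ i ∈ (T ∪ R)ᶜ, (p.1 i) ^ (j.val + 1) = ∑ i ∈ (T ∪ R)ᶜ, (p.2 i) ^ (j.val + 1) := by
        refine sum_congr rfl fun i hi => ?_
        rw [mem_compl, mem_union, not_or] at hi
        rw [(hp3 i hi.1 hi.2).1, (hp3 i hi.1 hi.2).2]
      rw [e5] at h4
      have h6 := add_right_cancel h4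
      rw [sum_sub_distrib, sum_neg_distrib]
      linear_combination h6
  · rintro (i | i) _
    · simp only [e, Sum.elim_inl]
      split_ifs
      · exact one_ne_zero
      · exact neg_ne_zero.2 one_ne_zero
      · exact one_ne_zero
    · simp only [e, Sum.elim_inr]
      exact neg_ne_zero.2 one_ne_zero
  · rintro (i | i) _
    · simp only [f, Sum.elim_inl]
      split_ifs with h
      · exact hc i h
      · exact good_zero _
    · exact good_zero _
  · rintro (i | i) _
    · simp only [f, Sum.elim_inl]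
      split_ifs with h
      · exact hcd i h
      · simp
    · simp [f]
  · simpa [V] using hi0
  · simp [f]

open scoped Classical in
/-- solutions with the pairs in `T` on curves of the family, those in `R` arbitrary, the others equal -/
noncomputable def NR {s : ℕ} (n : ℕ) (A : Finset K) (F : Finset (Polynomial K)) (T R : Finset (Fin s)) :
    Finset ((Fin s → K) × (Fin s → K)) :=
  ((Fintype.piFinset fun _ : Fin s => A) ×ˢ (Fintype.piFinset fun _ : Fin s => A)).filter fun p =>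
    (∀ i, i ∉ T → i ∉ R → p.1 i = p.2 i) ∧
    (∀ i ∈ T, ∃ f ∈ F, p.2 i = f.eval (p.1 i) ∨ p.1 i = f.eval (p.2 i)) ∧
    ∀ j : Fin (n + 1), ∑ i, (p.1 i) ^ (j.val + 1) = ∑ i, (p.2 i) ^ (j.val + 1)

theorem nr_count {s : ℕ} (n D : ℕ) (hD : 1 ≤ D) (A : Finset K) (hA : 1 ≤ A.card)
    (F : Finset (Polynomial K)) (hF : ∀ f ∈ F, Good (n + 1) f) (hFd : ∀ f ∈ F, f.natDegree ≤ D)
    (T R : Finset (Fin s)) (hTR : Disjoint T R) (i0 : Fin s) (hi0 : i0 ∈ R) :
    (NR n A F T R).card ≤ ((2 * F.card) ^ T.card * A.card ^ (s - (T.card + R.card))) *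
      (2 ^ (2 * s) * (((n + 1) * D) ^ (2 * s) * A.card ^ n +
        ((n + 1) * ((n + 1) * D) + 1) ^ (n + 1) * A.card ^ (T.card + 2 * R.card - (n + 1)))) := by
  classical
  let Cs : Finset (Fin s → Polynomial K × Bool) :=
    Fintype.piFinset fun i => if i ∈ T then F ×ˢ (univ : Finset Bool) else {(0, true)}
  let Us : Finset (Fin s → K) := Fintype.piFinset fun i => if i ∈ T ∪ R then {0} else A
  have hCs : Cs.card = (2 * F.card) ^ T.card := by
    rw [Fintype.card_piFinset, ← prod_subset (subset_univ T)]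
    · rw [prod_congr rfl (g := fun _ => 2 * F.card), prod_const]
      intro i hi
      rw [if_pos hi, card_product, card_univ, Fintype.card_bool, mul_comm]
    · intro i _ hi
      rw [if_neg hi, card_singleton]
  have hUs : Us.card = A.card ^ (s - (T.card + R.card)) := by
    rw [Fintype.card_piFinset, ← prod_subset (subset_univ (T ∪ R)ᶜ)]
    · rw [prod_congr rfl (g := fun _ => A.card), prod_const, card_compl, Fintype.card_fin,
        card_union_of_disjoint hTR]
      intro i hi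
      rw [if_neg (mem_compl.1 hi)]
    · intro i _ hi
      rw [mem_compl, not_not] at hi
      rw [if_pos hi, card_singleton]
  have hsub : NR n A F T R ⊆ (Cs ×ˢ Us).biUnion fun q => NC n A T R q.1 q.2 := by
    intro p hp
    rw [NR, mem_filter] at hp
    obtain ⟨h1, h2, h3, h4⟩ := hp
    rw [mem_product, Fintype.mem_piFinset, Fintype.mem_piFinset] at h1
    have h5 : ∀ i, ∃ q : Polynomial K × Bool, (i ∈ T → q.1 ∈ F ∧
        (if q.2 = true then p.2 i = q.1.eval (p.1 i) else p.1 i = q.1.eval (p.2 i))) ∧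
        (i ∉ T → q = (0, true)) := by
      intro i
      by_cases hi : i ∈ T
      · obtain ⟨f, hf, hf1 | hf1⟩ := h3 i hi
        · exact ⟨(f, true), fun _ => ⟨hf, by rw [if_pos rfl]; exact hf1⟩, fun h => absurd hi h⟩
        · exact ⟨(f, false), fun _ => ⟨hf, by rw [if_neg (by simp)]; exact hf1⟩,
            fun h => absurd hi h⟩
      · exact ⟨(0, true), fun h => absurd h hi, fun _ => rfl⟩
    choose c hc using h5
    rw [mem_biUnion]
    refine ⟨(c, fun i => if i ∈ T ∪ R then 0 else p.1 i), ?_, ?_⟩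
    · rw [mem_product, Fintype.mem_piFinset, Fintype.mem_piFinset]
      refine ⟨fun i => ?_, fun i => ?_⟩
      · by_cases hi : i ∈ T
        · rw [if_pos hi, mem_product]
          exact ⟨((hc i).1 hi).1, mem_univ _⟩
        · rw [if_neg hi, mem_singleton]
          exact (hc i).2 hi
      · by_cases hi : i ∈ T ∪ R
        · simp only [if_pos hi, mem_singleton]
        · simp only [if_neg hi]
          exact h1.1 i
    · rw [NC, mem_filter, mem_product, Fintype.mem_piFinset, Fintype.mem_piFinset]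
      refine ⟨h1, fun i hi hiR => ?_, fun i hi => ((hc i).1 hi).2, h4⟩
      have : i ∉ T ∪ R := by rw [mem_union, not_or]; exact ⟨hi, hiR⟩
      simp only [if_neg this]
      exact ⟨trivial, (h2 i hi hiR).symm⟩
  calc (NR n A F T R).card ≤ _ := card_le_card hsub
    _ ≤ ∑ q ∈ Cs ×ˢ Us, (NC n A T R q.1 q.2).card := card_biUnion_le
    _ ≤ ∑ _q ∈ Cs ×ˢ Us, (2 ^ (2 * s) * (((n + 1) * D) ^ (2 * s) * A.card ^ n +
        ((n + 1) * ((n + 1) * D) + 1) ^ (n + 1) * A.card ^ (T.card + 2 * R.card - (n + 1)))) := by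
        refine sum_le_sum fun q hq => ?_
        rw [mem_product, Fintype.mem_piFinset] at hq
        have h1 : ∀ i ∈ T, (q.1 i).1 ∈ F := by
          intro i hi
          have := hq.1 i
          rw [if_pos hi, mem_product] at this
          exact this.1
        exact nc_count n D hD A hA T R hTR i0 hi0 q.1 q.2 (fun i hi => hF _ (h1 i hi))
          fun i hi => hFd _ (h1 i hi)
    _ = _ := by rw [sum_const, card_product, hCs, hUs, smul_eq_mul]

/-- the constant -/
def C3 (s n D : ℕ) : ℕ := 2 ^ (2 * s) * (2 * D) ^ s *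
      (((n + 1) * D) ^ (2 * s) + ((n + 1) * ((n + 1) * D) + 1) ^ (n + 1))

theorem nr_bound {s n r D : ℕ} (hD : 1 ≤ D) (A : Finset K) (H : ℕ) (hH : 1 ≤ H) (hHN : H ≤ A.card)
    (F : Finset (Polynomial K)) (hF : ∀ f ∈ F, Good (n + 1) f) (hFd : ∀ f ∈ F, f.natDegree ≤ D)
    (hFc : F.card ≤ D * H)
    (T R : Finset (Fin s)) (hTR : Disjoint T R) (hR : 1 ≤ R.card) (hRr : R.card ≤ r) (hrs : r ≤ s)
    (hTc : n + 2 ≤ T.card + R.card) :
    (NR n A F T R).card ≤ C3 s n D *
      (H ^ (s - r) * A.card ^ (s - (n + 1) + r) + H ^ (n + 1) * A.card ^ (s - 2)) := by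
  obtain ⟨i0, hi0⟩ : R.Nonempty := card_pos.1 hR
  have hTs : T.card + R.card ≤ s := by
    rw [← card_union_of_disjoint hTR]
    simpa using card_le_univ (T ∪ R)
  refine (nr_count n D hD A (by omega) F hF hFd T R hTR i0 hi0).trans ?_
  obtain ⟨m, hm⟩ : ∃ m, m = T.card := ⟨_, rfl⟩
  obtain ⟨ρ, hρ⟩ : ∃ ρ, ρ = R.card := ⟨_, rfl⟩
  obtain ⟨N, hN⟩ : ∃ N, N = A.card := ⟨_, rfl⟩
  rw [← hm, ← hρ] at hTc hTs
  rw [← hm, ← hρ, ← hN, C3]
  rw [← hρ] at hR hRr
  rw [← hN] at hHN
  set a : ℕ := ((n + 1) * D) ^ (2 * s)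
  set c : ℕ := ((n + 1) * ((n + 1) * D) + 1) ^ (n + 1)
  have h3 : (2 * F.card) ^ m ≤ (2 * D) ^ s * H ^ m := by
    calc (2 * F.card) ^ m ≤ ((2 * D) * H) ^ m := Nat.pow_le_pow_left (by rw [mul_assoc]; omega) _
      _ = (2 * D) ^ m * H ^ m := mul_pow _ _ _
      _ ≤ (2 * D) ^ s * H ^ m :=
        Nat.mul_le_mul_right _ (Nat.pow_le_pow_right (by omega) (by omega))
  have h4 : H ^ m * (N ^ n * N ^ (s - (m + ρ))) ≤ H ^ (n + 1) * N ^ (s - 2) := by
    rw [← pow_add]
    rcases le_or_gt m (n + 1) with h | h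
    · exact Nat.mul_le_mul (Nat.pow_le_pow_right hH h) (Nat.pow_le_pow_right (by omega) (by omega))
    · have e1 : H ^ m = H ^ (n + 1) * H ^ (m - (n + 1)) := by
        rw [← pow_add]; congr 1; omega
      rw [e1, mul_assoc]
      apply Nat.mul_le_mul_left
      calc H ^ (m - (n + 1)) * N ^ (n + (s - (m + ρ)))
          ≤ N ^ (m - (n + 1)) * N ^ (n + (s - (m + ρ))) :=
            Nat.mul_le_mul_right _ (Nat.pow_le_pow_left hHN _)
        _ = N ^ (m - (n + 1) + (n + (s - (m + ρ)))) := (pow_add _ _ _).symm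
        _ ≤ N ^ (s - 2) := Nat.pow_le_pow_right (by omega) (by omega)
  have h5 : H ^ m * (N ^ (m + 2 * ρ - (n + 1)) * N ^ (s - (m + ρ))) ≤
      H ^ (s - r) * N ^ (s - (n + 1) + r) := by
    rw [← pow_add]
    have e0 : m + 2 * ρ - (n + 1) + (s - (m + ρ)) = s - (n + 1) + ρ := by omega
    rw [e0]
    calc H ^ m * N ^ (s - (n + 1) + ρ) ≤ H ^ (s - ρ) * N ^ (s - (n + 1) + ρ) :=
          Nat.mul_le_mul_right _ (Nat.pow_le_pow_right hH (by omega))
      _ = H ^ (s - r) * (H ^ (r - ρ) * N ^ (s - (n + 1) + ρ)) := by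
          rw [← mul_assoc, ← pow_add]; congr 2; omega
      _ ≤ H ^ (s - r) * (N ^ (r - ρ) * N ^ (s - (n + 1) + ρ)) :=
          Nat.mul_le_mul_left _ (Nat.mul_le_mul_right _ (Nat.pow_le_pow_left hHN _))
      _ = H ^ (s - r) * N ^ (s - (n + 1) + r) := by
          rw [← pow_add]; congr 2; omega
  calc ((2 * F.card) ^ m * N ^ (s - (m + ρ))) *
        (2 ^ (2 * s) * (a * N ^ n + c * N ^ (m + 2 * ρ - (n + 1))))
      ≤ (((2 * D) ^ s * H ^ m) * N ^ (s - (m + ρ))) *
        (2 ^ (2 * s) * (a * N ^ n + c * N ^ (m + 2 * ρ - (n + 1)))) :=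
        Nat.mul_le_mul_right _ (Nat.mul_le_mul_right _ h3)
    _ = 2 ^ (2 * s) * (2 * D) ^ s * (a * (H ^ m * (N ^ n * N ^ (s - (m + ρ)))) +
          c * (H ^ m * (N ^ (m + 2 * ρ - (n + 1)) * N ^ (s - (m + ρ))))) := by ring
    _ ≤ 2 ^ (2 * s) * (2 * D) ^ s * (a * (H ^ (n + 1) * N ^ (s - 2)) +
          c * (H ^ (s - r) * N ^ (s - (n + 1) + r))) :=
        Nat.mul_le_mul_left _ (Nat.add_le_add (Nat.mul_le_mul_left _ h4) (Nat.mul_le_mul_left _ h5))
    _ ≤ 2 ^ (2 * s) * (2 * D) ^ s * (a + c) *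
          (H ^ (s - r) * N ^ (s - (n + 1) + r) + H ^ (n + 1) * N ^ (s - 2)) := by
        rw [mul_assoc (2 ^ (2 * s) * (2 * D) ^ s)]
        apply Nat.mul_le_mul_left
        nlinarith [Nat.zero_le (a * (H ^ (s - r) * N ^ (s - (n + 1) + r))),
          Nat.zero_le (c * (H ^ (n + 1) * N ^ (s - 2)))]

end Pool.Agent.Run7.h814.VC
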