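import Mathlib

set_option autoImplicit false
set_option linter.unusedSectionVars false

/-! A system of `n` polynomials in `n` variables has boundedly many nonsingular zeros. -/

namespace Pool.Agent.Run7.h814.VC

open Finset MvPolynomial

variable {K : Type} [Field K] [CharZero K]

/-- polynomials vanishing at the other points of a finite set -/
theorem exists_sep {n : ℕ} (Z : Finset (Fin n → K)) :
    ∃ g : (Fin n → K) → MvPolynomial (Fin n) K, ∀ a, eval a (g a) ≠ 0 ∧
      ∀ b ∈ Z, b ≠ a → eval b (g a) = 0 := by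
  classical
  have h : ∀ a b : Fin n → K, ∃ q : MvPolynomial (Fin n) K, a ≠ b → eval b q = 0 ∧ eval a q ≠ 0 := by
    intro a b
    by_cases hab : a = b
    · exact ⟨0, fun h => absurd hab h⟩
    · obtain ⟨i, hi⟩ := Function.ne_iff.1 hab
      refine ⟨X i - C (b i), fun _ => ⟨by simp, ?_⟩⟩
      simpa [sub_eq_zero] using hi
  choose q hq using h
  refine ⟨fun a => ∏ b ∈ Z.erase a, q a b, fun a => ⟨?_, fun b hb hba => ?_⟩⟩
  · rw [map_prod]
    exact prod_ne_zero_iff.2 fun b hb => (hq a b (ne_of_mem_erase hb).symm).2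
  · rw [map_prod]
    exact prod_eq_zero (mem_erase.2 ⟨hba, hb⟩) (hq a b hba.symm).1

/-- a combination of monomials that vanishes everywhere has zero coefficients -/
theorem monomials {n e : ℕ} (c : (Fin n → Fin (e + 1)) → K)
    (h : ∀ u : Fin n → K, ∑ α, c α * ∏ j, u j ^ (α j : ℕ) = 0) (α : Fin n → Fin (e + 1)) : c α = 0 := by
  classical
  let φ : (Fin n → Fin (e + 1)) → (Fin n →₀ ℕ) := fun α =>
    Finsupp.equivFunOnFinite.symm (fun j => (α j : ℕ))
  have hφ : Function.Injective φ := by
    intro α β hab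
    have := Finsupp.equivFunOnFinite.symm.injective hab
    funext j
    exact Fin.ext (congrFun this j)
  have hP : (∑ α, monomial (φ α) (c α) : MvPolynomial (Fin n) K) = 0 := by
    apply MvPolynomial.funext
    intro u
    rw [map_sum, map_zero, ← h u]
    refine sum_congr rfl fun α _ => ?_
    rw [eval_monomial]
    congr 1
    rw [Finsupp.prod_fintype _ _ (fun i => by simp)]
    rfl
  have := congrArg (coeff (φ α)) hP
  rw [coeff_sum, coeff_zero] at this
  rw [← this, sum_eq_single α]
  · simp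
  · intro β _ hβ
    rw [coeff_monomial, if_neg fun h => hβ (hφ h)]
  · simp

/-- the substitution `x = z + w T` -/
noncomputable def sub {n : ℕ} (z w : Fin n → K) : MvPolynomial (Fin n) K →ₐ[K] Polynomial K :=
  aeval (fun i => Polynomial.C (z i) + Polynomial.C (w i) * Polynomial.X)

theorem sub_coeff_zero {n : ℕ} (z w : Fin n → K) (f : MvPolynomial (Fin n) K) :
    (sub z w f).coeff 0 = eval z f := by
  rw [Polynomial.coeff_zero_eq_eval_zero]
  have : ((Polynomial.evalRingHom (0 : K)).comp (sub z w).toRingHom) = eval z := by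
    apply MvPolynomial.ringHom_ext
    · intro r
      simp [sub]
    · intro i
      simp [sub]
  have h := congrArg (fun φ => φ f) this
  simpa using h

/-- a system of `n` polynomials in `n` variables, of degree at most `d` in each variable, has at
most `(n d + 1)^n` nonsingular zeros -/
theorem bezout (n d : ℕ) (F : Fin n → MvPolynomial (Fin n) K)
    (hd : ∀ i j, (F j).degreeOf i ≤ d) (Z : Finset (Fin n → K))
    (h0 : ∀ z ∈ Z, ∀ j, eval z (F j) = 0)
    (h1 : ∀ z ∈ Z, ∀ u : Fin n → K, ∃ w : Fin n → K, ∀ j, (sub z w (F j)).coeff 1 = u j) :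
    Z.card ≤ (n * d + 1) ^ n := by
  classical
  obtain ⟨g, hg⟩ := exists_sep Z
  by_contra hlt
  rw [not_le] at hlt
  obtain ⟨e, hge⟩ : ∃ e : ℕ, ∀ a ∈ Z, ∀ i, (g a).degreeOf i ≤ e :=
    ⟨∑ a ∈ Z, ∑ i, (g a).degreeOf i, fun a ha i =>
      (Finset.single_le_sum (f := fun i => (g a).degreeOf i) (fun _ _ => Nat.zero_le _)
        (mem_univ i)).trans
      (Finset.single_le_sum (f := fun a => ∑ i, (g a).degreeOf i) (fun _ _ => Nat.zero_le _) ha)⟩
  obtain ⟨D, hD⟩ : ∃ D : ℕ, D = e + n * (e * d) := ⟨_, rfl⟩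
  let G : {a // a ∈ Z} × (Fin n → Fin (e + 1)) → MvPolynomial (Fin n) K :=
    fun p => g p.1 * ∏ j, F j ^ (p.2 j : ℕ)
  let T : ({a // a ∈ Z} × (Fin n → Fin (e + 1)) → K) →ₗ[K] ((Fin n → Fin (D + 1)) → K) :=
    { toFun := fun c v => ∑ p, c p * eval (fun i => ((v i : ℕ) : K)) (G p)
      map_add' := by intro c c'; funext v; simp [add_mul, sum_add_distrib]
      map_smul' := by intro t c; funext v; simp [mul_sum, mul_assoc] }
  have hker : LinearMap.ker T ≠ ⊥ := by
    apply LinearMap.ker_ne_bot_of_finrank_lt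
    rw [Module.finrank_fintype_fun_eq_card, Module.finrank_fintype_fun_eq_card, Fintype.card_prod,
      Fintype.card_coe, Fintype.card_fun, Fintype.card_fun, Fintype.card_fin, Fintype.card_fin,
      Fintype.card_fin]
    calc (D + 1) ^ n ≤ ((n * d + 1) * (e + 1)) ^ n := by
          apply Nat.pow_le_pow_left
          rw [hD]
          nlinarith [Nat.zero_le (n * d)]
      _ = (n * d + 1) ^ n * (e + 1) ^ n := mul_pow _ _ _
      _ < Z.card * (e + 1) ^ n := Nat.mul_lt_mul_of_pos_right hlt (by positivity)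
  obtain ⟨c, hc, hc0⟩ := Submodule.exists_mem_ne_zero_of_ne_bot hker
  have hGd : ∀ p i, (G p).degreeOf i ≤ D := by
    intro p i
    calc (G p).degreeOf i ≤ (g p.1).degreeOf i + (∏ j, F j ^ (p.2 j : ℕ)).degreeOf i :=
          degreeOf_mul_le _ _ _
      _ ≤ e + ∑ j : Fin n, e * d := by
          apply Nat.add_le_add (hge _ p.1.2 i)
          refine (degreeOf_prod_le _ _ _).trans (sum_le_sum fun j _ => ?_)
          refine (degreeOf_pow_le _ _ _).trans ?_
          exact Nat.mul_le_mul (Nat.lt_succ_iff.1 (p.2 j).2) (hd i j)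
      _ = D := by rw [hD]; simp
  have hQ : ∑ p, c p • G p = 0 := by
    apply eq_zero_of_eval_zero_at_prod_finset _
      (fun _ => (Finset.range (D + 1)).image (fun m : ℕ => (m : K)))
    · intro i
      rw [card_image_of_injective _ Nat.cast_injective, card_range, Nat.lt_succ_iff]
      refine (degreeOf_sum_le _ _ _).trans (Finset.sup_le fun p _ => ?_)
      refine le_trans ?_ (hGd p i)
      rw [smul_eq_C_mul]
      refine (degreeOf_mul_le _ _ _).trans ?_
      rw [degreeOf_C, zero_add]
    · intro x hx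
      have hx' : ∀ i, ∃ m : Fin (D + 1), ((m : ℕ) : K) = x i := by
        intro i
        obtain ⟨m, hm, hmx⟩ := mem_image.1 (hx i)
        exact ⟨⟨m, mem_range.1 hm⟩, hmx⟩
      choose v hv using hx'
      have h2 := congrFun (LinearMap.mem_ker.1 hc) v
      simp only [T, LinearMap.coe_mk, AddHom.coe_mk, Pi.zero_apply] at h2
      have hvx : (fun i => ((v i : ℕ) : K)) = x := funext hv
      rw [hvx] at h2
      rw [map_sum, ← h2]
      refine sum_congr rfl fun p _ => ?_
      rw [smul_eval]
  obtain ⟨p1, hp1⟩ := Function.ne_iff.1 hc0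
  obtain ⟨p0, hp0, hmin⟩ := Finset.exists_min_image
    (univ.filter fun p : {a // a ∈ Z} × (Fin n → Fin (e + 1)) => c p ≠ 0)
    (fun p => ∑ j, (p.2 j : ℕ)) ⟨p1, by simpa using hp1⟩
  rw [mem_filter] at hp0
  obtain ⟨b, hb⟩ : ∃ b, b = p0.1 := ⟨_, rfl⟩
  obtain ⟨t, ht⟩ : ∃ t, t = ∑ j, (p0.2 j : ℕ) := ⟨_, rfl⟩
  have hkey : ∀ u : Fin n → K, ∑ α : Fin n → Fin (e + 1),
      (if ∑ j, (α j : ℕ) = t then c (b, α) else 0) * ∏ j, u j ^ (α j : ℕ) = 0 := by
    intro u
    obtain ⟨w, hw⟩ := h1 b b.2 u
    have hq : ∀ j, sub b w (F j) = (sub b w (F j)).divX * Polynomial.X := by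
      intro j
      conv_lhs => rw [← Polynomial.divX_mul_X_add (sub b w (F j))]
      rw [sub_coeff_zero, h0 b b.2 j, map_zero, add_zero]
    have hcoef : ∀ p : {a // a ∈ Z} × (Fin n → Fin (e + 1)), c p * (sub b w (G p)).coeff t =
        if p.1 = b then (if ∑ j, (p.2 j : ℕ) = t then c p else 0) * (eval b.1 (g b) *
          ∏ j, u j ^ (p.2 j : ℕ)) else 0 := by
      intro p
      by_cases hcp : c p = 0
      · simp [hcp]
      have hle : t ≤ ∑ j, (p.2 j : ℕ) := by
        rw [ht]; exact hmin p (by simp [hcp])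
      have hG : sub b w (G p) = (sub b w (g p.1) * ∏ j, (sub b w (F j)).divX ^ (p.2 j : ℕ)) *
          Polynomial.X ^ (∑ j, (p.2 j : ℕ)) := by
        simp only [G]
        rw [map_mul, map_prod, mul_assoc, ← prod_pow_eq_pow_sum, ← prod_mul_distrib]
        congr 1
        refine prod_congr rfl fun j _ => ?_
        rw [map_pow, ← mul_pow, ← hq]
      rw [hG, Polynomial.coeff_mul_X_pow']
      by_cases hpt : ∑ j, (p.2 j : ℕ) = t
      · rw [if_pos hpt.le, hpt, Nat.sub_self, Polynomial.mul_coeff_zero, sub_coeff_zero, if_pos rfl]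
        have h3 : (∏ j, (sub b w (F j)).divX ^ (p.2 j : ℕ)).coeff 0 = ∏ j, u j ^ (p.2 j : ℕ) := by
          rw [Polynomial.coeff_zero_eq_eval_zero, Polynomial.eval_prod]
          refine prod_congr rfl fun j _ => ?_
          rw [Polynomial.eval_pow, ← Polynomial.coeff_zero_eq_eval_zero, Polynomial.coeff_divX, hw]
        rw [h3]
        by_cases hpb : p.1 = b
        · rw [if_pos hpb, hpb]
        · rw [if_neg hpb, (hg p.1.1).2 b b.2 (fun h => hpb (Subtype.ext h.symm))]
          ring
      · rw [if_neg (by omega), if_neg hpt]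
        simp
    have h4 : ∑ p, c p * (sub b w (G p)).coeff t = 0 := by
      have h5 := congrArg (fun f => (sub b w f).coeff t) hQ
      simp only [map_sum, map_smul, map_zero, Polynomial.finsetSum_coeff, Polynomial.coeff_smul,
        smul_eq_mul, Polynomial.coeff_zero] at h5
      exact h5
    rw [sum_congr rfl fun p _ => hcoef p, Fintype.sum_prod_type] at h4
    rw [sum_eq_single b (fun a _ hab => by simp [hab]) (by simp)] at h4
    simp only [if_true] at h4
    have h6 : eval b.1 (g b) * ∑ α : Fin n → Fin (e + 1),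
      (if ∑ j, (α j : ℕ) = t then c (b, α) else 0) * ∏ j, u j ^ (α j : ℕ) = 0 := by
      refine Eq.trans ?_ h4
      rw [mul_sum]
      exact sum_congr rfl fun α _ => by ring
    exact (mul_eq_zero.1 h6).resolve_left (hg b.1).1
  have h7 := monomials _ hkey p0.2
  simp only [← ht, if_true] at h7
  exact hp0.2 (by rw [← h7, hb])

end Pool.Agent.Run7.h814.VC
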