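import Pool.Agent.Run7.h814.VC.Bez

set_option autoImplicit false
set_option linter.unusedSectionVars false

/-! Systems `∑ e_v (z_v^j - f_v(z_v)^j) = 0`, `1 ≤ j ≤ n + 1`, with entries in a finite set. -/

namespace Pool.Agent.Run7.h814.VC

open Finset Polynomial

variable {K : Type} [Field K] [CharZero K]

/-- `f` is not `X`, and if it is linear, its leading coefficient is `1` or no root of unity of an order
between `2` and `k` -/
def Good (k : ℕ) (f : K[X]) : Prop :=
  f ≠ X ∧ ∀ a b : K, f = C a * X + C b → a = 1 ∨ ∀ j : ℕ, 2 ≤ j → j ≤ k → a ^ j ≠ 1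

theorem comp_ne {n : ℕ} {f g : K[X]} (hf : Good (n + 1) f) (hg : g.natDegree ≤ n)
    (hg1 : 1 ≤ g.natDegree) : g - g.comp f * derivative f ≠ 0 := by
  intro h0
  have h1 : g = g.comp f * derivative f := sub_eq_zero.1 h0
  have hgne : g ≠ 0 := by
    intro h; rw [h, natDegree_zero] at hg1; omega
  have hc : g.comp f ≠ 0 := by
    intro h; rw [h, zero_mul] at h1; exact hgne h1
  have hd : derivative f ≠ 0 := by
    intro h; rw [h, mul_zero] at h1; exact hgne h1
  have he : 1 ≤ f.natDegree := by
    by_contra hlt
    have h2 : f.natDegree = 0 := by omega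
    rw [eq_C_of_natDegree_eq_zero h2, derivative_C] at hd
    exact hd rfl
  have hdeg := congrArg natDegree h1
  rw [natDegree_mul hc hd, natDegree_comp, natDegree_derivative] at hdeg
  have he1 : f.natDegree = 1 := by
    by_contra hne
    have h2 : 2 ≤ f.natDegree := by omega
    have h3 : g.natDegree * 2 ≤ g.natDegree * f.natDegree := Nat.mul_le_mul_left _ h2
    omega
  obtain ⟨a, ha, b, hab⟩ := natDegree_eq_one.1 he1
  have hab' : f = C a * X + C b := hab.symm
  have hlead : a ^ (g.natDegree + 1) = 1 := by
    have h2 := congrArg (fun p => coeff p g.natDegree) h1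
    rw [hab', derivative_add, derivative_C_mul, derivative_X, derivative_C, mul_one, add_zero,
      coeff_mul_C] at h2
    have h3 : (g.comp (C a * X + C b)).coeff g.natDegree = g.leadingCoeff * a ^ g.natDegree := by
      have h4 := leadingCoeff_comp (p := g) (q := C a * X + C b) (by
        rw [← hab']; omega)
      have h5 : (g.comp (C a * X + C b)).natDegree = g.natDegree := by
        rw [natDegree_comp, ← hab', he1, mul_one]
      rw [leadingCoeff, h5] at h4
      rw [h4, leadingCoeff_linear ha]
    rw [h3, coeff_natDegree] at h2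
    have h6 : g.leadingCoeff ≠ 0 := leadingCoeff_ne_zero.2 hgne
    have h7 : g.leadingCoeff * (a ^ (g.natDegree + 1)) = g.leadingCoeff * 1 := by
      rw [pow_succ, mul_one, ← mul_assoc]
      exact h2.symm
    exact mul_left_cancel₀ h6 h7
  have ha1 : a = 1 := by
    rcases hf.2 a b hab' with h | h
    · exact h
    · exact absurd hlead (h _ (by omega) (by omega))
  have hb : b ≠ 0 := by
    intro hb
    apply hf.1
    rw [hab', ha1, hb]; simp
  have hcomp : g.comp (X + C b) = g := by
    rw [hab', ha1] at h1
    simp only [map_one, one_mul, derivative_add, derivative_X, derivative_C, add_zero, mul_one] at h1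
    exact h1.symm
  have hm : ∀ m : ℕ, g.eval ((m : K) * b) = g.eval 0 := by
    intro m
    induction m with
    | zero => simp
    | succ m ih =>
      have h2 := congrArg (Polynomial.eval ((m : K) * b)) hcomp
      rw [Polynomial.eval_comp, Polynomial.eval_add, Polynomial.eval_X, Polynomial.eval_C, ih] at h2
      rw [← h2]
      congr 1
      push_cast
      ring
  have hconst : g - C (g.eval 0) = 0 := by
    apply Polynomial.eq_zero_of_infinite_isRoot
    refine Set.Infinite.mono (s := Set.range fun m : ℕ => (m : K) * b) ?_ ?_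
    · rintro _ ⟨m, rfl⟩
      simp only [Set.mem_ofPred_eq, Polynomial.IsRoot.def, Polynomial.eval_sub, Polynomial.eval_C]
      rw [hm m, sub_self]
    · apply Set.infinite_range_of_injective
      intro x y hxy
      exact_mod_cast mul_right_cancel₀ hb hxy
  rw [sub_eq_zero.1 hconst, natDegree_C] at hg1
  omega

/-- the column of the derivatives for a variable of type `(e, f)` -/
noncomputable def col (n : ℕ) (e : K) (f : K[X]) (z : K) : Fin (n + 1) → K :=
  fun j => e * (z ^ j.val - (f.eval z) ^ j.val * (derivative f).eval z)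

theorem few_in_subspace {n D : ℕ} (hD : 1 ≤ D) (W : Submodule K (Fin (n + 1) → K)) (hW : W ≠ ⊤)
    (w0 : Fin (n + 1) → K) (hw0 : w0 ∈ W) (hw1 : w0 0 ≠ 0) (e : K) (he : e ≠ 0) (f : K[X])
    (hf : Good (n + 1) f) (hfd : f.natDegree ≤ D)
    (S : Finset K) (hS : ∀ z ∈ S, col n e f z ∈ W) : S.card ≤ (n + 1) * D := by
  classical
  obtain ⟨φ, hφ, hWφ⟩ := Submodule.exists_le_ker_of_lt_top W (lt_top_iff_ne_top.2 hW)
  set g : K[X] := ∑ j : Fin (n + 1), C (φ (Pi.single j 1)) * X ^ j.val with hg
  have hφv : ∀ v : Fin (n + 1) → K, φ v = ∑ j, φ (Pi.single j 1) * v j := by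
    intro v
    conv_lhs => rw [← Finset.univ_sum_single v]
    rw [map_sum]
    refine sum_congr rfl fun j _ => ?_
    have : (Pi.single j (v j) : Fin (n + 1) → K) = v j • Pi.single j 1 := by
      rw [← Pi.single_smul]; simp
    rw [this, map_smul, smul_eq_mul, mul_comm]
  have hgc : ∀ j : Fin (n + 1), g.coeff j.val = φ (Pi.single j 1) := by
    intro j
    simp only [hg, Polynomial.finsetSum_coeff, Polynomial.coeff_C_mul, Polynomial.coeff_X_pow]
    rw [sum_eq_single j]
    · simp
    · intro i _ hij
      rw [if_neg, mul_zero]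
      intro h1
      exact hij (Fin.ext h1.symm)
    · simp
  have hgd : g.natDegree ≤ n := by
    rw [hg]
    refine Polynomial.natDegree_sum_le_of_forall_le _ _ fun j _ => ?_
    exact (Polynomial.natDegree_C_mul_X_pow_le _ _).trans (Nat.lt_succ_iff.1 j.2)
  have hg1 : 1 ≤ g.natDegree := by
    by_contra hlt
    have h2 : g.natDegree = 0 := by omega
    have h3 := eq_C_of_natDegree_eq_zero h2
    have h4 := LinearMap.mem_ker.1 (hWφ hw0)
    rw [hφv, sum_eq_single 0] at h4
    · have h5 : φ (Pi.single 0 1) = 0 := (mul_eq_zero.1 h4).resolve_right hw1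
      apply hφ
      refine LinearMap.ext fun v => ?_
      rw [hφv, LinearMap.zero_apply]
      refine sum_eq_zero fun j _ => ?_
      by_cases hj : j = 0
      · rw [hj, h5, zero_mul]
      · rw [← hgc j, h3, Polynomial.coeff_C, if_neg, zero_mul]
        intro h6
        exact hj (Fin.ext h6)
    · intro j _ hj
      rw [← hgc j, h3, Polynomial.coeff_C, if_neg, zero_mul]
      intro h6
      exact hj (Fin.ext h6)
    · simp
  set Q : K[X] := g - g.comp f * derivative f with hQ
  have hQne : Q ≠ 0 := comp_ne hf hgd hg1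
  have hQd : Q.natDegree ≤ (n + 1) * D := by
    refine (Polynomial.natDegree_sub_le _ _).trans (max_le ?_ ?_)
    · nlinarith
    · refine (Polynomial.natDegree_mul_le).trans ?_
      have h1 : (g.comp f).natDegree ≤ n * D :=
        Polynomial.natDegree_comp_le.trans (Nat.mul_le_mul hgd hfd)
      have h2 : (derivative f).natDegree ≤ D := (Polynomial.natDegree_derivative_le _).trans (by omega)
      calc _ ≤ n * D + D := Nat.add_le_add h1 h2
        _ = (n + 1) * D := by ring
  have hroot : ∀ z ∈ S, z ∈ Q.roots.toFinset := by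
    intro z hz
    rw [Multiset.mem_toFinset, Polynomial.mem_roots hQne, Polynomial.IsRoot.def, hQ,
      Polynomial.eval_sub, Polynomial.eval_mul, Polynomial.eval_comp]
    have h1 := LinearMap.mem_ker.1 (hWφ (hS z hz))
    rw [hφv] at h1
    have h2 : e * (g.eval z - g.eval (f.eval z) * (derivative f).eval z) = 0 := by
      rw [← h1, hg, Polynomial.eval_finsetSum, Polynomial.eval_finsetSum, sum_mul,
        ← sum_sub_distrib, mul_sum]
      refine sum_congr rfl fun j _ => ?_
      simp only [col, Polynomial.eval_mul, Polynomial.eval_C, Polynomial.eval_pow, Polynomial.eval_X]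
      ring
    exact (mul_eq_zero.1 h2).resolve_left he
  calc S.card ≤ Q.roots.toFinset.card := card_le_card hroot
    _ ≤ Q.roots.card := Multiset.toFinset_card_le _
    _ ≤ Q.natDegree := Polynomial.card_roots' _
    _ ≤ (n + 1) * D := hQd

end Pool.Agent.Run7.h814.VC
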