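import Pool.Agent.Run7.h814.VC.Core

set_option autoImplicit false
set_option linter.unusedSectionVars false

/-! The number of solutions of `∑ e_v (z_v^j - f_v(z_v)^j) = 0`, `1 ≤ j ≤ n + 1`. -/

namespace Pool.Agent.Run7.h814.VC

open Finset

variable {K : Type} [Field K] [CharZero K]

section count

variable {ι : Type} [Fintype ι] [DecidableEq ι]

open scoped Classical in
/-- solutions of the system with entries in `A` on `V` and fixed entries off `V` -/
noncomputable def S3 (n : ℕ) (A : Finset K) (V : Finset ι) (e : ι → K) (f : ι → Polynomial K)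
    (u : ι → K) : Finset (ι → K) :=
  (Fintype.piFinset fun v : ι => if v ∈ V then A else {u v}).filter fun z =>
    ∀ j : Fin (n + 1), ∑ v ∈ V, e v * (z v ^ (j.val + 1) - ((f v).eval (z v)) ^ (j.val + 1)) = 0

open scoped Classical in
/-- the part with the basis `B` -/
noncomputable def B3 (n : ℕ) (A : Finset K) (V : Finset ι) (e : ι → K) (f : ι → Polynomial K)
    (u : ι → K) (B : Finset ι) : Finset (ι → K) :=
  (S3 n A V e f u).filter fun z =>
    LinearIndepOn K (fun v => col n (e v) (f v) (z v)) (B : Set ι) ∧
    ∀ v ∈ V, col n (e v) (f v) (z v) ∈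
      Submodule.span K ((fun v => col n (e v) (f v) (z v)) '' (B : Set ι))

open scoped Classical in
theorem deg_count3 (n D : ℕ) (hD : 1 ≤ D) (A : Finset K) (hA : 1 ≤ A.card) (V : Finset ι)
    (e : ι → K) (f : ι → Polynomial K) (u : ι → K)
    (he : ∀ v ∈ V, e v ≠ 0) (hf : ∀ v ∈ V, Good (n + 1) (f v)) (hfd : ∀ v ∈ V, (f v).natDegree ≤ D)
    (v0 : ι) (hv0 : v0 ∈ V) (hv1 : f v0 = 0)
    (B : Finset ι) (hBV : B ⊆ V) (hB : B.card < n + 1) :
    (B3 n A V e f u B).card ≤ ((n + 1) * D) ^ (Fintype.card ι) * A.card ^ n := by
  have himg : ((B3 n A V e f u B).image fun x => fun i => if i ∈ B then x i else 0).card ≤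
      A.card ^ n := by
    calc _ ≤ (Fintype.piFinset fun i : ι => if i ∈ B then A else {0}).card := by
          apply card_le_card
          intro y hy
          obtain ⟨x, hx, rfl⟩ := mem_image.1 hy
          rw [B3, S3, mem_filter, mem_filter, Fintype.mem_piFinset] at hx
          rw [Fintype.mem_piFinset]
          intro i
          by_cases hi : i ∈ B
          · have := hx.1.1 i
            rw [if_pos (hBV hi)] at this
            simp only [if_pos hi]; exact this
          · simp only [if_neg hi]; simp
      _ = A.card ^ B.card := by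
          rw [Fintype.card_piFinset]
          rw [← prod_subset (subset_univ B)]
          · rw [prod_congr rfl (g := fun _ => A.card)]
            · simp
            · intro i hi; simp [hi]
          · intro i _ hi; simp [hi]
      _ ≤ A.card ^ n := Nat.pow_le_pow_right hA (by omega)
  refine (card_le_mul_card_image (B3 n A V e f u B) (((n + 1) * D) ^ (Fintype.card ι)) ?_).trans
    (Nat.mul_le_mul_left _ himg)
  intro y hy
  obtain ⟨x0, hx0, hy0⟩ := mem_image.1 hy
  let W : Submodule K (Fin (n + 1) → K) :=
    Submodule.span K ((fun v => col n (e v) (f v) (x0 v)) '' (B : Set ι))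
  have hW : W ≠ ⊤ := by
    intro htop
    have h1 : Module.finrank K W ≤ B.card := by
      have h2 := finrank_span_finset_le_card (R := K) (B.image fun v => col n (e v) (f v) (x0 v))
      rw [coe_image] at h2
      exact h2.trans card_image_le
    rw [htop, finrank_top, Module.finrank_fin_fun] at h1
    omega
  have hw0 : col n (e v0) (f v0) (x0 v0) ∈ W := by
    rw [B3, mem_filter] at hx0
    exact hx0.2.2 v0 hv0
  have hw1 : col n (e v0) (f v0) (x0 v0) 0 ≠ 0 := by
    simpa [col, hv1] using he v0 hv0
  calc _ ≤ (Fintype.piFinset fun i : ι => if i ∈ V then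
        A.filter (fun z : K => col n (e i) (f i) z ∈ W) else {u i}).card := by
        apply card_le_card
        intro x hx
        rw [mem_filter, B3, S3, mem_filter, mem_filter, Fintype.mem_piFinset] at hx
        obtain ⟨⟨⟨hx1, hx3⟩, hx4, hx5⟩, hx6⟩ := hx
        rw [Fintype.mem_piFinset]
        intro i
        have hx1i := hx1 i
        by_cases hi : i ∈ V
        · simp only [if_pos hi, mem_filter] at hx1i ⊢
          refine ⟨hx1i, ?_⟩
          have hW' : W = Submodule.span K ((fun v => col n (e v) (f v) (x v)) '' (B : Set ι)) := by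
            refine congrArg (Submodule.span K) ?_
            apply Set.image_congr
            intro l hl
            have := congrFun (hx6.trans hy0.symm) l
            simp only [mem_coe.1 hl, if_true] at this
            rw [this]
          rw [hW']
          exact hx5 i hi
        · simp only [if_neg hi] at hx1i ⊢
          exact hx1i
    _ = ∏ i : ι, (if i ∈ V then
        A.filter (fun z : K => col n (e i) (f i) z ∈ W) else {u i}).card :=
        Fintype.card_piFinset _
    _ ≤ ∏ _i : ι, ((n + 1) * D) := by
        apply prod_le_prod'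
        intro i _
        by_cases hi : i ∈ V
        · rw [if_pos hi]
          exact few_in_subspace hD W hW _ hw0 hw1 _ (he i hi) _ (hf i hi) (hfd i hi) _
            fun z hz => (mem_filter.1 hz).2
        · rw [if_neg hi, card_singleton]
          nlinarith
    _ = ((n + 1) * D) ^ (Fintype.card ι) := by simp [card_univ]

theorem sub_aeval {n : ℕ} (z w : Fin n → K) (l : Fin n) (f : Polynomial K) :
    sub z w (Polynomial.aeval (MvPolynomial.X l) f) =
      f.comp (Polynomial.C (z l) + Polynomial.C (w l) * Polynomial.X) := by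
  rw [← Polynomial.aeval_algHom_apply, sub, MvPolynomial.aeval_X]
  rfl

theorem sub_term3 {n : ℕ} (z w : Fin n → K) (l : Fin n) (e : K) (f : Polynomial K) (p : ℕ) :
    (sub z w (MvPolynomial.C e * ((MvPolynomial.X l) ^ (p + 1) -
      (Polynomial.aeval (MvPolynomial.X l) f) ^ (p + 1)))).coeff 1 =
      (p + 1) * (w l * (e * (z l ^ p - (f.eval (z l)) ^ p * (Polynomial.derivative f).eval (z l)))) := by
  have e1 : sub z w (MvPolynomial.C e * ((MvPolynomial.X l) ^ (p + 1) -
      (Polynomial.aeval (MvPolynomial.X l) f) ^ (p + 1))) =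
      Polynomial.C e * ((Polynomial.C (z l) + Polynomial.C (w l) * Polynomial.X) ^ (p + 1) -
        (f.comp (Polynomial.C (z l) + Polynomial.C (w l) * Polynomial.X)) ^ (p + 1)) := by
    rw [map_mul, map_sub, map_pow, map_pow, sub_aeval]
    simp only [sub, MvPolynomial.aeval_X, MvPolynomial.algHom_C, Polynomial.algebraMap_eq]
  have h1 : ∀ P : Polynomial K, P.coeff 1 = (Polynomial.derivative P).eval 0 := by
    intro P
    rw [← Polynomial.coeff_zero_eq_eval_zero, Polynomial.coeff_derivative]
    simp
  rw [e1, h1]
  simp only [Polynomial.derivative_mul, Polynomial.derivative_C, Polynomial.derivative_sub,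
    Polynomial.derivative_pow, Polynomial.derivative_add, Polynomial.derivative_X,
    Polynomial.derivative_comp, Polynomial.eval_add, Polynomial.eval_mul, Polynomial.eval_sub,
    Polynomial.eval_pow, Polynomial.eval_C, Polynomial.eval_X, Polynomial.eval_comp,
    Polynomial.eval_natCast, Polynomial.eval_zero, Polynomial.eval_one, Nat.add_sub_cancel]
  push_cast
  ring

theorem degreeOf_aeval {n : ℕ} (l i : Fin n) (f : Polynomial K) :
    (Polynomial.aeval (MvPolynomial.X l : MvPolynomial (Fin n) K) f).degreeOf i ≤ f.natDegree := by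
  rw [Polynomial.aeval_eq_sum_range]
  refine (MvPolynomial.degreeOf_sum_le _ _ _).trans (Finset.sup_le fun m hm => ?_)
  rw [MvPolynomial.smul_eq_C_mul]
  refine (MvPolynomial.degreeOf_mul_le _ _ _).trans ?_
  rw [MvPolynomial.degreeOf_C, zero_add]
  refine (MvPolynomial.degreeOf_pow_le _ _ _).trans ?_
  have hX : (MvPolynomial.X l : MvPolynomial (Fin n) K).degreeOf i ≤ 1 := by
    rw [MvPolynomial.degreeOf_X]; split_ifs <;> omega
  have h1 := mem_range.1 hm
  have h2 := Nat.mul_le_mul_left m hX
  omega

open scoped Classical in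
theorem nons_count3 (n D : ℕ) (hD : 1 ≤ D) (A : Finset K) (V : Finset ι)
    (e : ι → K) (f : ι → Polynomial K) (u : ι → K) (hfd : ∀ v ∈ V, (f v).natDegree ≤ D)
    (B : Finset ι) (hBV : B ⊆ V) (hB : B.card = n + 1) :
    (B3 n A V e f u B).card ≤
      ((n + 1) * ((n + 1) * D) + 1) ^ (n + 1) * A.card ^ (V.card - (n + 1)) := by
  have himg : ((B3 n A V e f u B).image fun x => fun i => if i ∈ B then 0 else x i).card ≤
      A.card ^ (V.card - (n + 1)) := by
    calc _ ≤ (Fintype.piFinset fun i : ι => if i ∈ B then {0} else if i ∈ V then A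
          else {u i}).card := by
          apply card_le_card
          intro y hy
          obtain ⟨x, hx, rfl⟩ := mem_image.1 hy
          rw [B3, S3, mem_filter, mem_filter, Fintype.mem_piFinset] at hx
          rw [Fintype.mem_piFinset]
          intro i
          have hxi := hx.1.1 i
          by_cases hi : i ∈ B
          · simp only [if_pos hi]; simp
          · simp only [if_neg hi]; exact hxi
      _ = A.card ^ (V.card - (n + 1)) := by
          rw [Fintype.card_piFinset]
          rw [← prod_subset (subset_univ (V \ B))]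
          · rw [prod_congr rfl (g := fun _ => A.card)]
            · rw [prod_const, card_sdiff_of_subset hBV, hB]
            · intro i hi
              rw [mem_sdiff] at hi
              simp [hi.1, hi.2]
          · intro i _ hi
            rw [mem_sdiff, not_and, not_not] at hi
            by_cases hib : i ∈ B
            · simp [hib]
            · have : i ∉ V := fun h => hib (hi h)
              simp [hib, this]
  refine (card_le_mul_card_image (B3 n A V e f u B)
    (((n + 1) * ((n + 1) * D) + 1) ^ (n + 1)) ?_).trans (Nat.mul_le_mul_left _ himg)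
  intro y hy
  obtain ⟨x0, hx0, hy0⟩ := mem_image.1 hy
  let q : Fin (n + 1) ≃ {i // i ∈ B} := (B.equivFinOfCardEq hB).symm
  have hsum : ∀ g : ι → K, ∑ i ∈ V, g i = ∑ l : Fin (n + 1), g (q l) + ∑ i ∈ V \ B, g i := by
    intro g
    rw [← sum_sdiff hBV, add_comm]
    congr 1
    rw [← sum_coe_sort B g]
    exact (Equiv.sum_comp q (fun i : {i // i ∈ B} => g i)).symm
  let F : Fin (n + 1) → MvPolynomial (Fin (n + 1)) K := fun j =>
    ∑ l : Fin (n + 1), (MvPolynomial.C (e (q l)) * ((MvPolynomial.X l) ^ (j.val + 1) -
      (Polynomial.aeval (MvPolynomial.X l) (f (q l))) ^ (j.val + 1))) +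
    MvPolynomial.C (∑ i ∈ V \ B, e i * (x0 i ^ (j.val + 1) - ((f i).eval (x0 i)) ^ (j.val + 1)))
  let φ : (ι → K) → (Fin (n + 1) → K) := fun x l => x (q l)
  set S := (B3 n A V e f u B).filter fun x => (fun i => if i ∈ B then 0 else x i) = y with hS
  have hoff : ∀ x ∈ S, ∀ i, i ∉ B → x i = x0 i := by
    intro x hx i hi
    have h1 := congrFun ((mem_filter.1 hx).2.trans hy0.symm) i
    simpa only [if_neg hi] using h1
  have hinj : Set.InjOn φ (S : Set (ι → K)) := by
    intro x hx x' hx' hxx
    funext i
    by_cases hi : i ∈ B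
    · have h1 := congrFun hxx (q.symm ⟨i, hi⟩)
      simp only [φ, Equiv.apply_symm_apply] at h1
      exact h1
    · rw [hoff x hx i hi, hoff x' hx' i hi]
  rw [← card_image_of_injOn hinj]
  refine bezout (n + 1) ((n + 1) * D) F ?_ _ ?_ ?_
  · intro i j
    have hC : ∀ r : K, (MvPolynomial.C r : MvPolynomial (Fin (n + 1)) K).degreeOf i ≤ 0 := by
      intro r; rw [MvPolynomial.degreeOf_C]
    refine (MvPolynomial.degreeOf_add_le _ _ _).trans (max_le ?_ ((hC _).trans (Nat.zero_le _)))
    refine (MvPolynomial.degreeOf_sum_le _ _ _).trans (Finset.sup_le fun l _ => ?_)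
    have hX : (MvPolynomial.X l : MvPolynomial (Fin (n + 1)) K).degreeOf i ≤ 1 := by
      rw [MvPolynomial.degreeOf_X]; split_ifs <;> omega
    refine (MvPolynomial.degreeOf_mul_le _ _ _).trans ?_
    have h1 := hC (e (q l))
    have h0 : ((MvPolynomial.X l) ^ (j.val + 1) -
      (Polynomial.aeval (MvPolynomial.X l : MvPolynomial (Fin (n + 1)) K) (f (q l))) ^
        (j.val + 1)).degreeOf i ≤ (n + 1) * D := by
      refine (MvPolynomial.degreeOf_sub_le _ _ _).trans (max_le ?_ ?_)
      · refine (MvPolynomial.degreeOf_pow_le _ _ _).trans ?_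
        exact Nat.mul_le_mul (by have := j.2; omega) (hX.trans hD)
      · refine (MvPolynomial.degreeOf_pow_le _ _ _).trans ?_
        refine Nat.mul_le_mul (by have := j.2; omega) ?_
        exact (degreeOf_aeval l i _).trans (hfd _ (hBV (q l).2))
    omega
  · intro z hz j
    obtain ⟨x, hx, rfl⟩ := mem_image.1 hz
    have hx1 := (mem_filter.1 hx).1
    rw [B3, S3, mem_filter, mem_filter] at hx1
    have h2 := hx1.1.2 j
    rw [hsum] at h2
    rw [← h2]
    have h3 : ∀ l : Fin (n + 1), MvPolynomial.eval (φ x)
        (Polynomial.aeval (MvPolynomial.X l : MvPolynomial (Fin (n + 1)) K) (f (q l))) =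
        (f (q l)).eval (x (q l)) := by
      intro l
      rw [← MvPolynomial.coe_aeval_eq_eval, RingHom.coe_coe, ← Polynomial.aeval_algHom_apply,
        MvPolynomial.aeval_X]
      simp [φ]
    simp only [F, map_add, map_sum, map_sub, map_mul, map_pow, MvPolynomial.eval_X,
      MvPolynomial.eval_C, h3]
    congr 1
    refine sum_congr rfl fun i hi => ?_
    rw [hoff x hx i (mem_sdiff.1 hi).2]
  · intro z hz t
    obtain ⟨x, hx, rfl⟩ := mem_image.1 hz
    have hx1 := (mem_filter.1 hx).1
    rw [B3, mem_filter] at hx1
    have hli := hx1.2.1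
    have hli2 : LinearIndependent K
        (fun l : Fin (n + 1) => col n (e (q l)) (f (q l)) (x (q l))) := by
      have h3 := hli.linearIndependent
      exact (linearIndependent_equiv' q rfl).2 h3
    have hspan := hli2.span_eq_top_of_card_eq_finrank' (by simp)
    have hmem : (fun j : Fin (n + 1) => t j / ((j.val : K) + 1)) ∈
        Submodule.span K (Set.range
          fun l : Fin (n + 1) => col n (e (q l)) (f (q l)) (x (q l))) := by
      rw [hspan]; trivial
    rw [Submodule.mem_span_range_iff_exists_fun] at hmem
    obtain ⟨w, hw⟩ := hmem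
    refine ⟨w, fun j => ?_⟩
    have h4 := congrFun hw j
    simp only [Finset.sum_apply, Pi.smul_apply, smul_eq_mul, col] at h4
    have h5 : t j = ((j.val : K) + 1) * (t j / ((j.val : K) + 1)) := by
      have : ((j.val : K) + 1) ≠ 0 := Nat.cast_add_one_ne_zero j.val
      field_simp
    rw [h5, ← h4, mul_sum]
    simp only [F, map_add, map_sum, Polynomial.coeff_add, Polynomial.finsetSum_coeff]
    rw [sum_congr rfl fun l _ => sub_term3 (φ x) w l _ _ j.val]
    have h6 : ∀ r : K, (sub (φ x) w (MvPolynomial.C r)).coeff 1 = 0 := by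
      intro r
      simp [sub]
    rw [sum_eq_zero (s := V \ B) (fun i _ => h6 _), add_zero]

theorem s3_count (n D : ℕ) (hD : 1 ≤ D) (A : Finset K) (hA : 1 ≤ A.card) (V : Finset ι)
    (e : ι → K) (f : ι → Polynomial K) (u : ι → K)
    (he : ∀ v ∈ V, e v ≠ 0) (hf : ∀ v ∈ V, Good (n + 1) (f v)) (hfd : ∀ v ∈ V, (f v).natDegree ≤ D)
    (v0 : ι) (hv0 : v0 ∈ V) (hv1 : f v0 = 0) :
    (S3 n A V e f u).card ≤ 2 ^ (Fintype.card ι) * (((n + 1) * D) ^ (Fintype.card ι) * A.card ^ n +
      ((n + 1) * ((n + 1) * D) + 1) ^ (n + 1) * A.card ^ (V.card - (n + 1))) := by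
  classical
  have hsub : S3 n A V e f u ⊆ V.powerset.biUnion fun B => B3 n A V e f u B := by
    intro x hx
    obtain ⟨B, hBV, -, hspan, hli⟩ := exists_linearIndepOn_extension (K := K)
      (v := fun v => col n (e v) (f v) (x v)) (linearIndepOn_empty K _)
      (Set.empty_subset (V : Set ι))
    rw [mem_biUnion]
    refine ⟨B.toFinset, ?_, ?_⟩
    · rw [mem_powerset, ← coe_subset, Set.coe_toFinset]
      exact hBV
    · rw [B3, mem_filter, Set.coe_toFinset]
      exact ⟨hx, hli, fun i hi => hspan ⟨i, hi, rfl⟩⟩
  calc (S3 n A V e f u).card ≤ (V.powerset.biUnion fun B => B3 n A V e f u B).card :=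
        card_le_card hsub
    _ ≤ ∑ B ∈ V.powerset, (B3 n A V e f u B).card := card_biUnion_le
    _ ≤ ∑ B ∈ V.powerset, (((n + 1) * D) ^ (Fintype.card ι) * A.card ^ n +
      ((n + 1) * ((n + 1) * D) + 1) ^ (n + 1) * A.card ^ (V.card - (n + 1))) := by
        apply sum_le_sum
        intro B hB
        rw [mem_powerset] at hB
        rcases lt_trichotomy B.card (n + 1) with h1 | h1 | h1
        · exact (deg_count3 n D hD A hA V e f u he hf hfd v0 hv0 hv1 B hB h1).trans
            (Nat.le_add_right _ _)
        · exact (nons_count3 n D hD A V e f u hfd B hB h1).trans (Nat.le_add_left _ _)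
        · have : B3 n A V e f u B = ∅ := by
            rw [eq_empty_iff_forall_notMem]
            intro x hx
            rw [B3, mem_filter] at hx
            have h3 := hx.2.1.linearIndependent.fintype_card_le_finrank
            simp at h3
            omega
          rw [this]; simp
    _ = 2 ^ V.card * (((n + 1) * D) ^ (Fintype.card ι) * A.card ^ n +
      ((n + 1) * ((n + 1) * D) + 1) ^ (n + 1) * A.card ^ (V.card - (n + 1))) := by
        rw [sum_const, card_powerset, smul_eq_mul]
    _ ≤ _ := by
        apply Nat.mul_le_mul_right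
        apply Nat.pow_le_pow_right (by norm_num)
        exact card_le_univ V

end count

end Pool.Agent.Run7.h814.VC
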